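import Pool.Agent.Lib.MP_b33ea7_lc.Defs

/-!
The progressive free set theorem, over Turing ideals.
-/

namespace Pool.Agent.FS.ProgFree

open Pool.Agent.Lib.MP_b33ea7_lc

/-- The progressive free set theorem: for `h` and `f` in `I` there is an infinite set `H` in `I`
such that for every increasing list `a :: t` from `H` with `t` of length at most `h a`, the value
of `f` is in the list as soon as it is in `H` and at least `a`. -/
def PFS (I : Set (ℕ → Bool)) : Prop :=
  ∀ (h : ℕ → ℕ) (f : List ℕ → ℕ), InI I h → InI I f →
    ∃ H ∈ I, {a | H a = true}.Infinite ∧ ∀ (a : ℕ) (t : List ℕ), (a :: t).Pairwise (· < ·) →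
      t.length ≤ h a → (∀ b ∈ a :: t, H b = true) → H (f (a :: t)) = true → a ≤ f (a :: t) →
        f (a :: t) ∈ a :: t

end Pool.Agent.FS.ProgFree
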