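import Pool.Agent.FS.SchreierRainbow.Main

/-!
Progressive set mappings of bounded size, and conditions that carry a closed class of them.
-/

namespace Pool.Agent.FS.ProgFree

open Pool.Agent.Lib.MP_b33ea7_lc Pool.Agent.Shared.Oracle Pool.Agent.Lib.MP_5290c5_lc
open Pool.Agent.FS.SchreierRainbow (catalan_le isOpen_in sort_toFinset')

attribute [local irreducible] Computable

variable {α β : Type} [Primcodable α] [Primcodable β]

/-- Predicates that are existential together with their negation. -/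
def D2 (Z : Re) (P : α → Re → Prop) : Prop := S1 Z P ∧ S1 Z fun a p => ¬ P a p

namespace D2

variable {Z : Re} {P Q : α → Re → Prop}

theorem not (h : D2 Z P) : D2 Z fun a p => ¬ P a p := ⟨h.2, h.1.congr fun _ _ => not_not.symm⟩

theorem and (hP : D2 Z P) (hQ : D2 Z Q) : D2 Z fun a p => P a p ∧ Q a p :=
  ⟨hP.1.and hQ.1, (hP.2.or hQ.2).congr fun _ _ => not_and_or.symm⟩

theorem comp {P : β → Re → Prop} {f : α → β} (h : D2 Z P) (hf : Computable f) :
    D2 Z fun a p => P (f a) p := ⟨h.1.comp hf, h.2.comp hf⟩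

theorem of_dec {q : α → Prop} (h : Dec Z q) : D2 Z fun a _ => q a :=
  ⟨S1.of_sigIn h.1, S1.of_sigIn h.2⟩

theorem ball_mem {P : α → ℕ → Re → Prop} {s : α → Finset ℕ} (hs : Computable s)
    (h : D2 Z fun (x : α × ℕ) p => P x.1 x.2 p) : D2 Z fun a p => ∀ j ∈ s a, P a j p :=
  ⟨S1.ball_mem hs h.1, (S1.ex (P := fun a j p => j ∈ s a ∧ ¬ P a j p)
    (S1.and (S1.dec (by fun_prop)) h.2)).congr fun _ _ => by simp⟩

theorem bex_sub {P : α → Finset ℕ → Re → Prop} {s : α → Finset ℕ} (hs : Computable s)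
    (h : D2 Z fun (x : α × Finset ℕ) p => P x.1 x.2 p) : D2 Z fun a p => ∃ D ⊆ s a, P a D p :=
  ⟨S1.ex (P := fun a D p => D ⊆ s a ∧ P a D p)
    (S1.and (SchreierRainbow.s1_subset (by fun_prop) (by fun_prop)) h.1),
    (S1.ball_sub (P := fun a D p => ¬ P a D p) hs h.2).congr fun _ _ => by simp⟩

theorem col {P : Finset ℕ → Re → Prop} (h : D2 Z P) : Col Z fun p D => P D p := fun q => by
  by_cases hq : q
  · exact h.1.congr fun _ _ => by simp [hq]
  · exact h.2.congr fun _ _ => by simp [hq]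

end D2

/-- Set mappings on finite sets. -/
abbrev Mp := Finset ℕ → ℕ → Prop

/-- Progressive set mappings with size bound `D`. -/
structure Nice (D : ℕ → ℕ) (G : Mp) : Prop where
  size : ∀ u x, G u x → ∀ a ∈ u, u.card ≤ D a
  prog : ∀ u x, G u x → ∃ a ∈ u, a < x
  out : ∀ u x, G u x → x ∉ u
  deg : ∀ u, ∀ a ∈ u, ∀ V : Finset ℕ, (∀ x ∈ V, G u x) → V.card ≤ D a

/-- No value in the stem or the reservoir on sets that meet the stem. -/
def Tw (σ : Finset ℕ) (Y : Re) (G : Mp) : Prop :=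
  ∀ u : Finset ℕ, (∀ a ∈ u, a ∈ σ ∨ Y a = true) → (∃ a, a ∈ u ∧ a ∈ σ) →
    ∀ x, (x ∈ σ ∨ Y x = true) → ¬ G u x

/-- Free sets. -/
def Fr (G : Mp) (X : Re) : Prop := ∀ u x, In u X → X x = true → ¬ G u x

/-- Finite free sets. -/
def FrF (G : Mp) (ρ : Finset ℕ) : Prop := ∀ u ⊆ ρ, ∀ x ∈ ρ, ¬ G u x

/-- Conditions. -/
structure Cond (T : Tgt) where
  /-- The oracle. -/
  Z : Re
  /-- The stem. -/
  σ : Finset ℕ
  /-- The reservoir. -/
  Y : Re
  /-- The class. -/
  P : Set Re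
  /-- The mapping given by a point. -/
  E : Re → Mp
  /-- The size bound. -/
  D : ℕ → ℕ
  good : Good T Z
  red : Red Y Z
  inf : Inf Y
  ne : P.Nonempty
  pi : Pi1 Z P
  dec : D2 Z fun (x : Finset ℕ × ℕ) p => E p x.1 x.2
  cD : SigIn Z fun x : ℕ × ℕ => D x.1 < x.2
  nice : ∀ p ∈ P, Nice D (E p)
  tw : ∀ p ∈ P, Tw σ Y (E p)
  sep : ∀ a ∈ σ, ∀ y, Y y = true → a < y

variable {T : Tgt}

/-- The sets that a condition leaves possible. -/
def Cond.Poss (c : Cond T) : Set Re := {X | X ∈ Cyl c.σ c.Y ∧ ∃ p ∈ c.P, Fr (c.E p) X}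

theorem Cond.poss_ne (c : Cond T) : c.Poss.Nonempty := by
  obtain ⟨p, hp⟩ := c.ne
  refine ⟨add c.σ emp, ⟨fun a ha => by simp [ha], fun a ha => by simpa using Or.inl ha⟩, p, hp,
    fun u x hu hx e => ?_⟩
  obtain ⟨a, ha, -⟩ := (c.nice p hp).prog u x e
  exact c.tw p hp u (fun a ha => Or.inl (by simpa using hu a ha))
    ⟨a, ha, by simpa using hu a ha⟩ x (Or.inl (by simpa using hx)) e

theorem Cond.poss_closed (c : Cond T) : IsClosed c.Poss := by
  have h1 : IsClosed {x : Re × Re | x.2 ∈ c.P ∧ Fr (c.E x.2) x.1} := by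
    have : {x : Re × Re | x.2 ∈ c.P ∧ Fr (c.E x.2) x.1} = Prod.snd ⁻¹' c.P ∩
        ⋂ u, ⋂ v, (Prod.fst ⁻¹' {X | In u X} ∩ (Prod.fst ⁻¹' {X : Re | X v = true} ∩
          Prod.snd ⁻¹' {p | c.E p u v}))ᶜ := by
      ext x
      simp [Fr]
    rw [this]
    exact (c.pi.isClosed.preimage continuous_snd).inter (isClosed_iInter fun u =>
      isClosed_iInter fun v => (((isOpen_in u).preimage continuous_fst).inter
        (((isClosed_eq_true v).isOpen.preimage continuous_fst).inter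
          ((c.dec.1.isOpen (u, v)).preimage continuous_snd))).isClosed_compl)
  have h2 : c.Poss = Cyl c.σ c.Y ∩
      Prod.fst '' {x : Re × Re | x.2 ∈ c.P ∧ Fr (c.E x.2) x.1} := by
    ext X
    simp [Cond.Poss]
  rw [h2]
  exact (isClosed_cyl _ _).inter (h1.isCompact.image continuous_fst).isClosed

/-- The `j`-th element of `D` is a value on `u` and the rest of `D`, above `r` other values. -/
def Rk (G : Mp) (u : Finset ℕ) (j r : ℕ) (D : Finset ℕ) : Prop :=
  ∃ w ⊆ D, ((∀ a ∈ D, a ∈ w ∨ a = (D.sort (· ≤ ·)).getD j 0) ∧ (D.sort (· ≤ ·)).getD j 0 ∉ w) ∧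
    G (u ∪ w) ((D.sort (· ≤ ·)).getD j 0) ∧
      ∃ V ⊆ Finset.range ((D.sort (· ≤ ·)).getD j 0), V.card = r ∧ ∀ y ∈ V, G (u ∪ w) y

theorem rk_iff {G : Mp} {u : Finset ℕ} {r y : ℕ} {A B : List ℕ}
    (h : (A ++ [y] ++ B).Pairwise (· < ·)) : Rk G u A.length r (A ++ [y] ++ B).toFinset ↔
      G (u ∪ (A ++ B).toFinset) y ∧
        ∃ V ⊆ Finset.range y, V.card = r ∧ ∀ z ∈ V, G (u ∪ (A ++ B).toFinset) z := by
  have h1 : ((A ++ [y] ++ B).toFinset.sort (· ≤ ·)).getD A.length 0 = y := by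
    rw [sort_toFinset' h]
    simp
  have h2 : y ∉ (A ++ B).toFinset := by
    have h3 : (A ++ [y] ++ B).Nodup := h.imp ne_of_lt
    simp only [List.append_assoc, List.singleton_append, List.nodup_middle, List.nodup_cons] at h3
    simpa using h3.1
  rw [Rk, h1]
  constructor
  · rintro ⟨w, a1, ⟨a2, a3⟩, a4⟩
    have : w = (A ++ B).toFinset := Finset.ext fun a => ⟨fun ha => by
      have b1 := a1 ha
      have b2 : a ≠ y := fun e => a3 (e ▸ ha)
      simpa [b2] using b1, fun ha => (a2 a (by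
        simp only [List.mem_toFinset, List.mem_append] at ha ⊢
        tauto)).resolve_right fun e => h2 (e ▸ ha)⟩
    rwa [this] at a4
  · intro a4
    refine ⟨_, fun a ha => ?_, ⟨fun a ha => ?_, h2⟩, a4⟩
    · simp only [List.mem_toFinset, List.mem_append] at ha ⊢
      tauto
    · simp only [List.mem_toFinset, List.mem_append, List.mem_singleton] at ha ⊢
      tauto

theorem d2_rk {Z : Re} {E : Re → Mp} (h : D2 Z fun (x : Finset ℕ × ℕ) p => E p x.1 x.2)
    (u : Finset ℕ) (j r : ℕ) : D2 Z fun D p => Rk (E p) u j r D :=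
  D2.bex_sub (s := fun D => D) (by fun_prop) (D2.and (D2.and
    (D2.ball_mem (P := fun (x : Finset ℕ × Finset ℕ) a _ =>
      a ∈ x.2 ∨ a = (x.1.sort (· ≤ ·)).getD j 0) (by fun_prop) (D2.of_dec (Dec.dec (by fun_prop))))
    (D2.of_dec (Dec.dec (by fun_prop)))) (D2.and
      (h.comp (f := fun x : Finset ℕ × Finset ℕ => (u ∪ x.2, (x.1.sort (· ≤ ·)).getD j 0))
        (by fun_prop))
      (D2.bex_sub (P := fun (x : Finset ℕ × Finset ℕ) V p => V.card = r ∧
        ∀ y ∈ V, E p (u ∪ x.2) y) (by fun_prop) (D2.and (D2.of_dec (Dec.dec (by fun_prop)))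
          (D2.ball_mem (P := fun (x : (Finset ℕ × Finset ℕ) × Finset ℕ) y p =>
            E p (u ∪ x.1.2) y) (by fun_prop)
            (h.comp (f := fun x : ((Finset ℕ × Finset ℕ) × Finset ℕ) × ℕ => (u ∪ x.1.1.2, x.2))
              (by fun_prop)))))))

/-- At the Catalan bound the colour of a set is the colour of all lists of some shape. -/
theorem shape_colour {f : ℕ → ℕ} {Z Y : Re} (hf : ComputableIn {orc Z} f) (hY : Red Y Z)
    (hinf : Inf Y) (hn : ¬ SigIn Z fun i => i ∉ Set.range f) {κ : Type} {col : Finset ℕ → κ}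
    {J : Finset κ} {m : ℕ} (hJ : J.card ≤ catalan m) (hT : Thin (m + 1) col J Y)
    (hs : ∀ D D', col D = col D' → ∀ t : BinaryTree Unit, t.numNodes = m →
      Has f t (D.sort (· ≤ ·)) → Has f t (D'.sort (· ≤ ·))) {D : Finset ℕ} (h1 : In D Y)
    (h2 : D.card = m + 1) : ∃ t : BinaryTree Unit, t.numNodes = m ∧
      ∀ l, Real' f Y t 0 l → col l.toFinset = col D := by
  classical
  choose r hr using fun t => realize hf hY hinf hn t 0
  have mem : ∀ t : BinaryTree Unit, t.numNodes = m → ∀ l, Real' f Y t 0 l →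
      col l.toFinset ∈ J := fun t ht l hl =>
    hT _ (fun a ha => (hl.2.2 a (List.mem_toFinset.1 ha)).1)
      (by rw [List.toFinset_card_of_nodup (hl.2.1.imp ne_of_lt), hl.1.length, ht])
  have inj : ∀ t t' : BinaryTree Unit, t.numNodes = m → ∀ l, Real' f Y t 0 l →
      col l.toFinset = col (r t').toFinset → t = t' := fun t t' ht l hl e => by
    have h3 := hs _ _ e t ht (by rw [sort_toFinset' hl.2.1]; exact hl.1)
    rw [sort_toFinset' (hr t').2.1] at h3
    exact h3.unique (hr t').1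
  have sur : ∀ x ∈ J, ∃ t : BinaryTree Unit, t.numNodes = m ∧ col (r t).toFinset = x := by
    have := Finset.surjOn_of_injOn_of_card_le (s := BinaryTree.treesOfNumNodesEq m) (t := J)
      (fun t => col (r t).toFinset)
      (fun t ht => mem t (BinaryTree.mem_treesOfNumNodesEq.1 ht) _ (hr t))
      (fun t ht t' _ e => inj t t' (BinaryTree.mem_treesOfNumNodesEq.1 ht) _ (hr t) e)
      (by rwa [BinaryTree.treesOfNumNodesEq_card_eq_catalan])
    intro x hx
    obtain ⟨t, ht, e⟩ := this hx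
    exact ⟨t, BinaryTree.mem_treesOfNumNodesEq.1 ht, e⟩
  obtain ⟨t, ht, e⟩ := sur _ (hT D h1 h2)
  refine ⟨t, ht, fun l hl => ?_⟩
  obtain ⟨t', -, e'⟩ := sur _ (mem t ht l hl)
  rw [← e', ← inj t t' ht l hl e'.symm, e]

/-- The mapping of limit values below `N`. -/
theorem Cond.types {f : ℕ → ℕ} (hf : ComputableIn {orc emp} f)
    (hn : ∀ Z, Good T Z → ¬ SigIn Z fun i => i ∉ Set.range f) (c : Cond T) (N : ℕ)
    (hN : c.σ ⊆ Finset.range N) :
    ∃ G : Mp, Nice (SchreierRainbow.star c.D) G ∧ Tw c.σ c.Y G ∧ ∀ ρ ⊆ Finset.range N, In ρ c.Y →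
      FrF G (c.σ ∪ ρ) → ∀ u, ∃ d : Cond T, Red c.Z d.Z ∧ d.Poss ⊆ c.Poss ∧
        ∀ X ∈ d.Poss, In ρ X ∧ ∀ i < u, X i = add (c.σ ∪ ρ) emp i := by
  classical
  have hf' : ∀ Z, ComputableIn {orc Z} f := fun Z =>
    cin_red hf (SigIn.dec (by unfold emp; fun_prop))
  obtain ⟨M, hM⟩ : ∃ M, M = (Finset.range N).sup c.D := ⟨_, rfl⟩
  let col : Re → Finset ℕ → ((Finset.range N).powerset × Fin N → Prop) ×
      ((Finset.range N).powerset × Fin M × Fin (M + 2) → Prop) ×
      ((Finset.range M).biUnion BinaryTree.treesOfNumNodesEq → Prop) := fun p D =>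
    (fun x => c.E p (x.1.1 ∪ D) x.2.1, fun x => Rk (c.E p) x.1.1 x.2.1.1 x.2.2.1 D,
      fun t => Has f t.1 (D.sort (· ≤ ·)))
  have hcol : Col c.Z col := Col.prod
    (Col.pi fun x => D2.col (c.dec.comp (f := fun D : Finset ℕ => (x.1.1 ∪ D, x.2.1))
      (by fun_prop)))
    (Col.prod (Col.pi fun x => D2.col (d2_rk c.dec _ _ _))
      (Col.pi fun t => D2.col (D2.of_dec ((dec_has (hf' _) t.1).comp (by fun_prop)))))
  obtain ⟨Z', Y', Q, J, wf, hZ, hY, hQ, hJ⟩ := multi (n := M) (c := catalan)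
    (fun j _ => sProp_catalan T j) (Z := c.Z) (Y := cut c.Y N) (P := c.P) (col := col)
    ⟨c.good, red_cut c.red _, c.inf.cut _, c.ne, c.pi, hcol⟩
  obtain ⟨q₀, hq₀⟩ := wf.ne
  have hpi : Pi1 Z' {q | q ∈ Q ∧ ¬ (col q ∅ ≠ col q₀ ∅)} :=
    wf.pi.sep (wf.col.pred (· ≠ col q₀ ∅) (s := fun _ => ∅) (Computable.const _))
  have hY' : Sub Y' c.Y := hY.trans (cut_sub _ _)
  have hge : ∀ a, Y' a = true → N ≤ a := fun a h => (cut_true.1 (hY a h)).1
  have hdis : ∀ {u w : Finset ℕ}, u ⊆ Finset.range N → In w Y' → Disjoint u w := fun hu hw =>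
    Finset.disjoint_left.2 fun a h1 h2 => by
      have h3 := hge a (hw a h2)
      have h4 := Finset.mem_range.1 (hu h1)
      omega
  have hDM : ∀ a ∈ Finset.range N, c.D a ≤ M := fun a ha => hM ▸ Finset.le_sup (f := c.D) ha
  have free : ∀ q ∈ Q, ∀ u ⊆ Finset.range N, ∀ a ∈ u, ∀ w, In w Y' → ∀ x, Y' x = true →
      ¬ c.E q (u ∪ w) x := by
    intro q hq u hu a ha w hw x hx e
    have n1 := c.nice q (hQ hq)
    have h1 := n1.size _ _ e a (Finset.mem_union_left _ ha)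
    rw [Finset.card_union_of_disjoint (hdis hu hw)] at h1
    have h2 := Finset.card_pos.2 ⟨a, ha⟩
    have h3 := hDM a (hu ha)
    have h4 : x ∉ w := fun h => n1.out _ _ e (Finset.mem_union_right _ h)
    have h5 : w.card < M := by omega
    have h6 : (insert x w).card = w.card + 1 := Finset.card_insert_of_notMem h4
    obtain ⟨t, ht, hl⟩ := shape_colour (hf' Z') wf.red wf.inf (hn _ wf.good) (hJ _ h5).1
      ((hJ _ h5).2 q hq) (fun D D' e t ht h => (congrFun (congrArg (fun z => z.2.2) e)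
        ⟨t, Finset.mem_biUnion.2 ⟨_, Finset.mem_range.2 h5,
          BinaryTree.mem_treesOfNumNodesEq.2 ht⟩⟩).mp h) (D := insert x w)
      (fun b hb => (Finset.mem_insert.1 hb).elim (fun e => e ▸ hx) (hw b)) h6
    obtain ⟨j, hj, ej⟩ := List.mem_iff_getElem.1
      ((Finset.mem_sort (· ≤ ·)).2 (Finset.mem_insert_self x w))
    have ej' : ((insert x w).sort (· ≤ ·)).getD j 0 = x := by rw [List.getD_eq_getElem _ _ hj, ej]
    rw [Finset.length_sort, h6] at hj
    have h7 : Rk (c.E q) u j 0 (insert x w) := by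
      rw [Rk, ej']
      exact ⟨w, Finset.subset_insert _ _, ⟨fun b hb => (Finset.mem_insert.1 hb).symm, h4⟩, e, ∅,
        by simp, rfl, by simp⟩
    obtain ⟨z, ⟨z1, z2⟩, z3, z4⟩ := realize_two (hf' Z') wf.red wf.inf (hn _ wf.good) t j
      (by omega) 0
    have tr : ∀ {D D' : Finset ℕ}, col q D = col q D' → ∀ r < M + 2, Rk (c.E q) u j r D →
        Rk (c.E q) u j r D' := fun e r hr h => (congrFun (congrArg (fun z => z.2.1) e)
      (⟨u, Finset.mem_powerset.2 hu⟩, ⟨j, by omega⟩, ⟨r, hr⟩)).mp h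
    have h8 : ∀ r < M + 2, Rk (c.E q) u j r (z.1.1 ++ [z.2.1] ++ z.1.2).toFinset := by
      intro r
      induction r with
      | zero => exact fun hr => tr (hl _ z3).symm 0 hr h7
      | succ r ih =>
        intro hr
        have b1 := ih (by omega)
        have b2 := tr ((hl _ z3).trans (hl _ z4).symm) r (by omega) b1
        refine tr ((hl _ z4).trans (hl _ z3).symm) _ hr ?_
        rw [← z1, rk_iff z3.2.1] at b1
        rw [← z1, rk_iff z4.2.1] at b2 ⊢
        obtain ⟨b3, V, b4, b5, b6⟩ := b1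
        refine ⟨b2.1, insert z.2.1 V, Finset.insert_subset (Finset.mem_range.2 z2)
          (b4.trans (Finset.range_mono z2.le)), ?_, fun y hy => ?_⟩
        · rw [Finset.card_insert_of_notMem fun h => by simpa using b4 h, b5]
        · exact (Finset.mem_insert.1 hy).elim (fun e => e ▸ b3) (b6 y)
    obtain ⟨w', -, -, -, V, -, b5, b6⟩ := h8 (M + 1) (by omega)
    have := n1.deg _ a (Finset.mem_union_left _ ha) V b6
    omega
  refine ⟨fun u x => u ⊆ Finset.range N ∧ x < N ∧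
    ∃ q, (q ∈ Q ∧ ¬ (col q ∅ ≠ col q₀ ∅)) ∧ ∃ w, In w Y' ∧ c.E q (u ∪ w) x,
    ⟨?_, ?_, ?_, ?_⟩, ?_, ?_⟩
  · rintro u v ⟨h1, h2, q, h3, w, h4, h5⟩ a ha
    exact ((Finset.card_le_card Finset.subset_union_left).trans
      ((c.nice q (hQ h3.1)).size _ _ h5 a (Finset.mem_union_left _ ha))).trans
        (Nat.le_mul_of_pos_right _ (Nat.succ_pos _))
  · rintro u x ⟨h1, h2, q, h3, w, h4, h5⟩
    obtain ⟨a, a1, a2⟩ := (c.nice q (hQ h3.1)).prog _ _ h5
    refine ⟨a, (Finset.mem_union.1 a1).resolve_right fun h => ?_, a2⟩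
    have := hge a (h4 a h)
    omega
  · rintro u x ⟨h1, h2, q, h3, w, h4, h5⟩ h
    exact (c.nice q (hQ h3.1)).out _ _ h5 (Finset.mem_union_left _ h)
  · intro u a ha V hV
    rcases V.eq_empty_or_nonempty with rfl | ⟨x₀, hx₀⟩
    · simp
    choose! q hq w hw he using fun x hx => (hV x hx).2.2
    have h3 := hDM a ((hV x₀ hx₀).1 ha)
    refine (Finset.card_le_mul_card_image_of_maps_to (s := V)
      (t := insert (col q₀ ∅) ((Finset.range (c.D a)).biUnion J)) (f := fun x => col (q x) (w x))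
      ?_ (c.D a) ?_).trans (Nat.mul_le_mul_left _ ?_)
    · intro x hx
      have h1 := (c.nice _ (hQ (hq x hx).1)).size _ _ (he x hx) a (Finset.mem_union_left _ ha)
      rw [Finset.card_union_of_disjoint (hdis (hV x hx).1 (hw x hx))] at h1
      have h2 := Finset.card_pos.2 ⟨a, ha⟩
      rcases h4 : (w x).card with _ | j
      · rw [Finset.card_eq_zero.1 h4, not_not.1 (hq x hx).2]
        exact Finset.mem_insert_self _ _
      · exact Finset.mem_insert_of_mem (Finset.mem_biUnion.2 ⟨j, Finset.mem_range.2 (by omega),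
          (hJ j (by omega)).2 _ (hq x hx).1 _ (hw x hx) h4⟩)
    · intro τ _
      rcases (V.filter fun x => col (q x) (w x) = τ).eq_empty_or_nonempty with h | ⟨y, hy⟩
      · simp [h]
      obtain ⟨hy1, hy2⟩ := Finset.mem_filter.1 hy
      refine (c.nice _ (hQ (hq y hy1).1)).deg (u ∪ w y) a (Finset.mem_union_left _ ha) _ ?_
      intro x hx
      obtain ⟨hx1, hx2⟩ := Finset.mem_filter.1 hx
      exact (congrFun (congrArg Prod.fst (hx2.trans hy2.symm))
        (⟨u, Finset.mem_powerset.2 (hV x hx1).1⟩, ⟨x, (hV x hx1).2.1⟩)).mp (he x hx1)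
    · refine (Finset.card_insert_le _ _).trans (Nat.succ_le_succ ?_)
      refine (Finset.card_biUnion_le_card_mul _ _ (4 ^ c.D a) fun j hj => ?_).trans (by simp)
      have h4 := Finset.mem_range.1 hj
      exact (hJ j (by omega)).1.trans ((catalan_le j).trans (Nat.pow_le_pow_right (by omega) h4.le))
  · rintro u hu ⟨a, a1, a2⟩ x hx ⟨-, -, q, h3, w, h4, h5⟩
    exact c.tw q (hQ h3.1) (u ∪ w) (fun b hb => (Finset.mem_union.1 hb).elim (hu b)
      fun h => Or.inr (hY' b (h4 b h))) ⟨a, Finset.mem_union_left _ a1, a2⟩ x hx h5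
  · intro ρ h1 h2 h3 u
    have h4 : c.σ ∪ ρ ⊆ Finset.range N := Finset.union_subset hN h1
    refine ⟨⟨Z', c.σ ∪ ρ, cut Y' u, {q | q ∈ Q ∧ ¬ (col q ∅ ≠ col q₀ ∅)}, c.E, c.D, wf.good,
      red_cut wf.red _, wf.inf.cut _, ⟨q₀, hq₀, by simp⟩, hpi, ⟨c.dec.1.red hZ, c.dec.2.red hZ⟩,
      c.cD.red hZ, fun p hp => c.nice p (hQ hp.1), ?_, fun a ha y hy =>
        (Finset.mem_range.1 (h4 ha)).trans_le (hge y (cut_sub _ _ y hy))⟩, hZ, ?_, ?_⟩
    · rintro p hp s hs ⟨a, a1, a2⟩ x hx e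
      have b1 : s.filter (· ∈ c.σ ∪ ρ) ⊆ c.σ ∪ ρ := fun b hb => (Finset.mem_filter.1 hb).2
      have b2 : In (s.filter fun b => ¬ b ∈ c.σ ∪ ρ) Y' := fun b hb => cut_sub _ _ b
        ((hs b (Finset.mem_filter.1 hb).1).resolve_left (Finset.mem_filter.1 hb).2)
      rw [← Finset.filter_union_filter_not_eq (· ∈ c.σ ∪ ρ) s] at e
      rcases hx with hx | hx
      · exact h3 _ b1 x hx ⟨b1.trans h4, Finset.mem_range.1 (h4 hx), p, hp, _, b2, e⟩
      · exact free p hp.1 _ (b1.trans h4) a (Finset.mem_filter.2 ⟨a1, a2⟩) _ b2 x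
          (cut_sub _ _ x hx) e
    · rintro X ⟨h5, p, hp, h6⟩
      exact ⟨cyl_extend ((cut_sub _ _).trans hY') h2 h5, p, hQ hp.1, h6⟩
    · rintro X ⟨h5, -⟩
      refine ⟨In.mono h5.1 Finset.subset_union_right, fun i hi => re_ext ?_⟩
      simp only [add_true, emp_true, or_false]
      refine ⟨fun h => (h5.2 i h).resolve_right fun h' => ?_, h5.1 i⟩
      have := (cut_true.1 h').1
      omega

end Pool.Agent.FS.ProgFree
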