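import Pool.Agent.FS.ProgFree.Step
import Pool.Agent.FS.ProgFree.Defs
import Pool.Agent.Lib.MP_b33ea7_lc.Tree

/-!
A Turing ideal of good sets closed under progressive free sets.
-/

namespace Pool.Agent.FS.ProgFree

open Pool.Agent.Lib.MP_b33ea7_lc Pool.Agent.Shared.Oracle Pool.Agent.Lib.MP_5290c5_lc
open Pool.Agent.FS.SchreierRainbow (sort_toFinset' exists_ideal)

attribute [local irreducible] Computable

/-- A path of an infinite tree is computable from the range of a function computable in it. -/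
theorem path_of_range {Z : Re} {T : List Bool → Bool} (hT : ComputableIn {orc Z} T)
    (htree : IsTree T) (hne : ∀ L, (level T L).Nonempty) : ∃ f : ℕ → ℕ, ComputableIn {orc Z} f ∧
      ∀ W : Re, (∀ n, W n = true ↔ n ∈ Set.range f) →
        ∃ X : Re, ComputableIn {orc W} X ∧ IsPath T X := by
  classical
  let dead : List Bool → ℕ → Prop := fun σ s =>
    ∀ m < 2 ^ s, ¬ T (σ ++ seg (Nat.testBit m) s) = true
  have h1 : Dec Z fun x : List Bool × ℕ => dead x.1 x.2 :=
    Dec.ball (by fun_prop) (Dec.of_cin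
      (f := fun y : (List Bool × ℕ) × ℕ => T (y.1.1 ++ seg (Nat.testBit y.2) y.1.2))
      (cin_comp hT (Computable.computableIn (by unfold seg; fun_prop)))
      (r := fun y => y.1 = true) (Dec.dec (by fun_prop))).not
  let str : ℕ → List Bool := fun i => (Encodable.decode i).getD []
  let f : ℕ → ℕ := fun x => cond (decide (dead (str x.unpair.1) x.unpair.2)) (x.unpair.1 + 1) 0
  have hf : ComputableIn {orc Z} f :=
    cin_cond (h1.comp (f := fun x : ℕ => (str x.unpair.1, x.unpair.2))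
      (by unfold str; fun_prop)).cin (Computable.computableIn (by fun_prop))
      (Computable.computableIn (by fun_prop))
  refine ⟨f, hf, fun W hWe => ?_⟩
  have h2 : ∀ σ : List Bool, W (Encodable.encode σ + 1) = true ↔ ∃ s, dead σ s := by
    intro σ
    rw [hWe]
    simp only [Set.mem_range]
    constructor
    · rintro ⟨x, hx⟩
      by_cases h3 : dead (str x.unpair.1) x.unpair.2
      · simp only [f, h3, decide_true, cond_true, Nat.add_right_cancel_iff] at hx
        rw [hx] at h3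
        exact ⟨_, by simpa [str] using h3⟩
      · simp [f, h3] at hx
    · rintro ⟨s, hs⟩
      exact ⟨Nat.pair (Encodable.encode σ) s, by simp [f, str, hs]⟩
  have h3 : ∀ σ s, dead σ s ↔ ∀ τ : List Bool, τ.length = s → ¬ T (σ ++ τ) = true := by
    refine fun σ s => ⟨fun H τ hτ => ?_, fun H m _ => H _ (by simp)⟩
    obtain ⟨m, m1, m2⟩ := exists_bits (fun i => τ.getD i false) s
    have h4 := H m m1
    have h5 : seg (fun i => τ.getD i false) s = τ := by
      apply List.ext_getElem (by simp [hτ])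
      intro i _ h6
      simp [seg, List.getElem?_eq_getElem h6]
    rwa [m2 s le_rfl, h5] at h4
  have h4 : ∀ σ s s', s ≤ s' → dead σ s → dead σ s' := by
    intro σ s s' hs H
    rw [h3] at H ⊢
    intro τ hτ h5
    refine H (τ.take s) (by simp; omega) (htree _ _ ?_ h5)
    exact (List.prefix_append_right_inj σ).2 (List.take_prefix _ _)
  let u : ℕ → List Bool := fun n => n.rec [] fun _ σ =>
    σ ++ [W (Encodable.encode (σ ++ [false]) + 1)]
  have hu : ComputableIn {orc W} u :=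
    cin_nat_rec (f := fun n : ℕ => n) (g := fun _ => ([] : List Bool))
      (h := fun _ (x : ℕ × List Bool) => x.2 ++ [W (Encodable.encode (x.2 ++ [false]) + 1)])
      Computable.id.computableIn (Computable.const _).computableIn
      (cin_comp₂ (f := fun (σ : List Bool) (b : Bool) => σ ++ [b])
        (Computable.computableIn (by fun_prop))
        (Computable.computableIn (f := fun y : ℕ × ℕ × List Bool => y.2.2) (by fun_prop))
        (cin_comp (cin_orc rfl) (Computable.computableIn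
          (f := fun y : ℕ × ℕ × List Bool => Encodable.encode (y.2.2 ++ [false]) + 1)
          (by fun_prop))))
  have h5 : ∀ n, ¬ ∃ s, dead (u n) s := by
    intro n
    induction n with
    | zero =>
      rintro ⟨s, hs⟩
      obtain ⟨v, hv⟩ := hne s
      exact (h3 _ _).1 hs (List.ofFn v) (by simp) (by simpa [level, u] using hv)
    | succ n ih =>
      rintro ⟨s, hs⟩
      have e : u (n + 1) = u n ++ [W (Encodable.encode (u n ++ [false]) + 1)] := rfl
      rw [e] at hs
      cases hb : W (Encodable.encode (u n ++ [false]) + 1) with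
      | false =>
        rw [hb] at hs
        have := (h2 _).2 ⟨s, hs⟩
        simp [hb] at this
      | true =>
        rw [hb] at hs
        obtain ⟨s', hs'⟩ := (h2 _).1 hb
        refine ih ⟨s + s' + 1, (h3 _ _).2 fun τ hτ => ?_⟩
        rcases τ with _ | ⟨_ | _, τ⟩
        · simp at hτ
        · simpa using (h3 _ _).1 (h4 _ _ (s + s') (by omega) hs') τ (by simpa using hτ)
        · simpa using (h3 _ _).1 (h4 _ _ (s + s') (by omega) hs) τ (by simpa using hτ)
  refine ⟨fun n => W (Encodable.encode (u n ++ [false]) + 1), cin_comp (cin_orc rfl)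
    (cin_comp (f := fun σ : List Bool => Encodable.encode (σ ++ [false]) + 1)
      (Computable.computableIn (by fun_prop)) hu), fun L => ?_⟩
  have h6 : ∀ L, (List.range L).map (fun n => W (Encodable.encode (u n ++ [false]) + 1)) = u L := by
    intro L
    induction L with
    | zero => rfl
    | succ L ih => rw [List.range_succ, List.map_append, ih]; rfl
  rw [h6]
  by_contra h7
  exact h5 L ⟨0, (h3 _ _).2 fun τ hτ => by simpa [List.length_eq_zero_iff.1 hτ] using h7⟩

theorem exists_hard : ∃ f : ℕ → ℕ, ComputableIn {orc emp} f ∧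
    ∀ Z, Good tgt Z → ¬ SigIn Z fun i => i ∉ Set.range f := by
  classical
  obtain ⟨f, h1, h2⟩ := path_of_range (Z := emp) c_tree.computableIn isTree_tree fun L =>
    Finset.card_pos.1 (Nat.pos_of_ne_zero fun h0 => by
      have := level_tree L
      rw [h0] at this
      simp at this)
  refine ⟨f, h1, fun Z hZ hn => ?_⟩
  have hf : ComputableIn {orc Z} f := cin_red h1 (SigIn.dec (by unfold emp; fun_prop))
  obtain ⟨X, a, b⟩ := h2 (fun n => decide (n ∈ Set.range f)) (by simp)
  exact not_good_of_path b (hZ.red ((red_iff.2 a).trans (red_iff.2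
    (Dec.cin ⟨SigIn.ex (p := fun i x => f x = i)
      ((graph_of_cin hf).comp (f := fun x : ℕ × ℕ => (x.2, x.1)) (by fun_prop)), hn⟩))))

/-- `H` solves the instance `(f, h)`. -/
def Fp (f : List ℕ → ℕ) (h : ℕ → ℕ) (H : Re) : Prop :=
  Inf H ∧ ∀ (a : ℕ) (t : List ℕ), (a :: t).Pairwise (· < ·) → t.length ≤ h a →
    (∀ b ∈ a :: t, H b = true) → H (f (a :: t)) = true → a ≤ f (a :: t) → f (a :: t) ∈ a :: t

theorem exists_fp {Z : Re} (hZ : Good tgt Z) {f : List ℕ → ℕ} {h : ℕ → ℕ}
    (hf : ComputableIn {orc Z} f) (hh : ComputableIn {orc Z} h) :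
    ∃ H, Good tgt (join Z H) ∧ Fp f h H := by
  obtain ⟨g, g1, g2⟩ := exists_hard
  have df : Dec Z fun x : List ℕ × ℕ => f x.1 = x.2 :=
    Dec.of_cin (f := fun x : List ℕ × ℕ => f x.1) (cin_comp hf ComputableIn.fst)
      (r := fun y => y.1 = y.2.2) (Dec.dec (by fun_prop))
  have d0 : Dec Z fun x : ℕ × ℕ => x.2 ≤ h x.1 + 1 :=
    Dec.of_cin (f := fun x : ℕ × ℕ => h x.1) (cin_comp hh ComputableIn.fst)
      (r := fun y => y.2.2 ≤ y.1 + 1) (Dec.dec (by fun_prop))
  have dE : Dec Z fun x : Finset ℕ × ℕ => x.1.card ≤ h ((x.1.sort (· ≤ ·)).headD 0) + 1 ∧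
      f (x.1.sort (· ≤ ·)) = x.2 ∧ 0 < x.1.card ∧ x.2 ∉ x.1 ∧ (x.1.sort (· ≤ ·)).headD 0 < x.2 :=
    Dec.and (d0.comp (f := fun x : Finset ℕ × ℕ => ((x.1.sort (· ≤ ·)).headD 0, x.1.card))
      (by fun_prop)) (Dec.and (df.comp (f := fun x : Finset ℕ × ℕ => (x.1.sort (· ≤ ·), x.2))
        (by fun_prop)) (Dec.dec (by fun_prop)))
  have dh : SigIn Z fun x : ℕ × ℕ => (Finset.range (x.1 + 1)).sup h + 1 < x.2 := by
    have d1 : Dec Z fun y : (ℕ × ℕ) × ℕ => h y.2 + 1 < y.1.2 :=
      Dec.of_cin (f := fun y : (ℕ × ℕ) × ℕ => h y.2) (cin_comp hh ComputableIn.snd)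
        (r := fun z => z.1 + 1 < z.2.1.2) (Dec.dec (by fun_prop))
    refine (SigIn.ball (p := fun (x : ℕ × ℕ) i => h i + 1 < x.2) (f := fun x => x.1 + 1)
      (by fun_prop) d1.1).congr fun x => ⟨fun H => ?_, fun H i hi => ?_⟩
    · obtain ⟨i, hi, e⟩ := Finset.exists_mem_eq_sup (Finset.range (x.1 + 1)) (by simp) h
      rw [e]
      exact H i (Finset.mem_range.1 hi)
    · have := Finset.le_sup (f := h) (Finset.mem_range.2 hi)
      omega
  have hd : ∀ u : Finset ℕ, 0 < u.card → (u.sort (· ≤ ·)).headD 0 ∈ u ∧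
      ∀ a ∈ u, (u.sort (· ≤ ·)).headD 0 ≤ a := fun u hu => by
    have a1 : ∀ a, a ∈ u.sort (· ≤ ·) ↔ a ∈ u := fun a => Finset.mem_sort _
    have a2 := Finset.pairwise_sort u (· ≤ ·)
    have a3 := Finset.length_sort (s := u) (· ≤ ·)
    generalize u.sort (· ≤ ·) = l at a1 a2 a3
    rcases l with _ | ⟨b, t⟩
    · simp only [List.length_nil] at a3
      omega
    exact ⟨(a1 b).1 List.mem_cons_self, fun a ha => (List.mem_cons.1 ((a1 a).2 ha)).elim
      (fun e => e.ge) ((List.pairwise_cons.1 a2).1 a)⟩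
  have hn : Nice (fun a => (Finset.range (a + 1)).sup h + 1) fun u x =>
      u.card ≤ h ((u.sort (· ≤ ·)).headD 0) + 1 ∧ f (u.sort (· ≤ ·)) = x ∧ 0 < u.card ∧ x ∉ u ∧
        (u.sort (· ≤ ·)).headD 0 < x := by
    refine ⟨?_, fun u x e => ⟨_, (hd u e.2.2.1).1, e.2.2.2.2⟩, fun u x e => e.2.2.2.1,
      fun u a _ V hV => ?_⟩
    · rintro u x ⟨e1, -, e2, -⟩ a ha
      exact e1.trans (Nat.succ_le_succ (Finset.le_sup (f := h)
        (Finset.mem_range.2 (Nat.lt_succ_of_le ((hd u e2).2 a ha)))))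
    · exact (Finset.card_le_one.2 fun x hx y hy => (hV x hx).2.1.symm.trans (hV y hy).2.1).trans
        (Nat.le_add_left _ _)
  obtain ⟨X, ⟨-, p, -, hX⟩, a1, a2⟩ := Cond.exists_good g1 g2 ⟨Z, ∅, fun _ => true, Set.univ,
    fun _ u x => u.card ≤ h ((u.sort (· ≤ ·)).headD 0) + 1 ∧ f (u.sort (· ≤ ·)) = x ∧
      0 < u.card ∧ x ∉ u ∧ (u.sort (· ≤ ·)).headD 0 < x, _, hZ, SigIn.dec (by fun_prop),
    fun N => ⟨N, le_rfl, rfl⟩, Set.univ_nonempty, pi1_univ Z, D2.of_dec dE, dh, fun _ _ => hn,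
    fun _ _ u _ h => by simp at h, by simp⟩
  refine ⟨X, a2, a1, fun a t b1 b2 b3 b4 b5 => ?_⟩
  by_contra hne
  have b6 : (a :: t).toFinset.card = t.length + 1 :=
    List.toFinset_card_of_nodup (b1.imp ne_of_lt)
  refine hX (a :: t).toFinset _ (fun b hb => b3 b (List.mem_toFinset.1 hb)) b4 ?_
  dsimp only
  rw [sort_toFinset' b1, b6]
  exact ⟨Nat.succ_le_succ b2, rfl, Nat.succ_pos _, fun h => hne (List.mem_toFinset.1 h),
    lt_of_le_of_ne b5 fun e => hne (List.mem_cons.2 (Or.inl e.symm))⟩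

theorem exists_model_fp : ∃ I : Set Re, IsIdeal I ∧ (∀ n, RT I (n + 1) (catalan n)) ∧ PFS I ∧
    ∀ X ∈ I, Good tgt X := by
  obtain ⟨I, h1, h2, h3⟩ := exists_ideal (T := tgt) (ι := Option ℕ × (List ℕ → ℕ) × (ℕ → ℕ))
    (fun Z => Set.univ ×ˢ {f | ComputableIn {orc Z} f} ×ˢ {f | ComputableIn {orc Z} f})
    (fun Z => Set.countable_univ.prod ((countable_cin Z).prod (countable_cin Z)))
    (fun Z => ⟨(none, fun _ => 0, fun _ => 0), trivial,
      (Computable.const 0).computableIn, (Computable.const 0).computableIn⟩)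
    (fun X Z h i hi => ⟨trivial, cin_red hi.2.1 h, cin_red hi.2.2 h⟩)
    (fun i H => i.1.elim (Fp i.2.1 i.2.2 H) fun n => Sol n i.2.1 H)
    (by
      rintro Z hZ ⟨_ | n, f, h⟩ ⟨-, a, b⟩
      · exact exists_fp hZ a b
      · exact exists_sol hZ n a) good_emp
  refine ⟨I, h1, ?_, ?_, h3⟩
  · rintro n k f ⟨X, hX, hf⟩ hk
    obtain ⟨H, a, b⟩ := h2 X hX (some n, f, fun _ => 0)
      ⟨trivial, hf, (Computable.const 0).computableIn⟩
    exact ⟨H, a, inf_iff.1 (b k hk).1, (b k hk).2⟩
  · rintro h f ⟨Y, hY, hh⟩ ⟨W, hW, hf⟩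
    obtain ⟨H, a, b⟩ := h2 _ (h1.join _ hY _ hW) (none, f, h)
      ⟨trivial, cin_red hf (red_right _ _), cin_red hh (red_left _ _)⟩
    exact ⟨H, a, inf_iff.1 b.1, b.2⟩

end Pool.Agent.FS.ProgFree
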