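import Pool.Agent.FS.ProgFree.Graph

/-!
The forcing step, and good infinite free sets.
-/

namespace Pool.Agent.FS.ProgFree

open Pool.Agent.Lib.MP_b33ea7_lc Pool.Agent.Shared.Oracle Pool.Agent.Lib.MP_5290c5_lc
open Pool.Agent.FS.SchreierRainbow (sigIn_star sigIn_add s1_subset subset_range)

attribute [local irreducible] Computable

variable {T : Tgt} {α : Type} [Primcodable α]

/-- The mapping coded by a point. -/
def gdec (g : Re) : Mp := fun u x => g (Nat.pair (code u) x) = true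

theorem exists_gdec (G : Mp) : ∃ g, gdec g = G := by
  classical
  exact ⟨fun n => decide (G (fs n.unpair.1) n.unpair.2), funext fun u => funext fun v => by
    simp [gdec]⟩

theorem s1_gdec {Z : Re} {s : α → Finset ℕ} {t : α → ℕ} (hs : Computable s) (ht : Computable t) :
    S1 Z fun a g => gdec g (s a) (t a) :=
  S1.pt (f := fun a => Nat.pair (code (s a)) (t a)) (g := fun _ => true) (by fun_prop)
    (by fun_prop)

theorem s1_not_gdec {Z : Re} {s : α → Finset ℕ} {t : α → ℕ} (hs : Computable s)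
    (ht : Computable t) : S1 Z fun a g => ¬ gdec g (s a) (t a) :=
  (S1.pt (f := fun a => Nat.pair (code (s a)) (t a)) (g := fun _ => false) (by fun_prop)
    (by fun_prop)).congr fun _ _ => by simp [gdec]

theorem s1_frF {Z : Re} {s : α → Finset ℕ} (hs : Computable s) :
    S1 Z fun a g => FrF (gdec g) (s a) :=
  S1.ball_sub (P := fun a u g => ∀ v ∈ s a, ¬ gdec g u v) hs
    (S1.ball_mem (P := fun (x : α × Finset ℕ) v g => ¬ gdec g x.2 v) (by fun_prop)
      (s1_not_gdec (by fun_prop) (by fun_prop)))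

theorem pi1_class {Z Y : Re} (hY : Red Y Z) {D : ℕ → ℕ}
    (hD : SigIn Z fun x : ℕ × ℕ => D x.1 < x.2) (σ : Finset ℕ) :
    Pi1 Z {g | Nice D (gdec g) ∧ Tw σ Y (gdec g)} := by
  have h1 : S1 Z fun (_ : Unit) g => (∃ u v, gdec g u v ∧ ∃ a, a ∈ u ∧ D a < u.card) ∨
      (∃ u v, gdec g u v ∧ ∀ a ∈ u, v ≤ a) ∨ (∃ u v, gdec g u v ∧ v ∈ u) ∨
      (∃ (u : Finset ℕ) (a : ℕ), a ∈ u ∧ ∃ V : Finset ℕ, (∀ c ∈ V, gdec g u c) ∧
        D a < V.card) ∨
      ∃ u : Finset ℕ, (∀ a ∈ u, a ∈ σ ∨ Y a = true) ∧ (∃ a, a ∈ u ∧ a ∈ σ) ∧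
        ∃ x, (x ∈ σ ∨ Y x = true) ∧ gdec g u x := by
    refine S1.or ?_ (S1.or ?_ (S1.or ?_ (S1.or ?_ ?_)))
    · exact S1.ex (S1.ex (S1.and (s1_gdec (by fun_prop) (by fun_prop))
        (S1.ex (S1.and (S1.dec (by fun_prop)) (S1.of_sigIn (hD.comp
          (f := fun x : ((Unit × Finset ℕ) × ℕ) × ℕ => (x.2, x.1.1.2.card))
            (by fun_prop)))))))
    · exact S1.ex (S1.ex (S1.and (s1_gdec (by fun_prop) (by fun_prop))
        (S1.ball_mem (P := fun (x : (Unit × Finset ℕ) × ℕ) a _ => x.2 ≤ a) (by fun_prop)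
          (S1.dec (by fun_prop)))))
    · exact S1.ex (S1.ex (S1.and (s1_gdec (by fun_prop) (by fun_prop)) (S1.dec (by fun_prop))))
    · exact S1.ex (S1.ex (S1.and (S1.dec (by fun_prop)) (S1.ex (S1.and
        (S1.ball_mem (P := fun (x : ((Unit × Finset ℕ) × ℕ) × Finset ℕ) c g =>
          gdec g x.1.1.2 c) (by fun_prop) (s1_gdec (by fun_prop) (by fun_prop)))
        (S1.of_sigIn (hD.comp
          (f := fun x : ((Unit × Finset ℕ) × ℕ) × Finset ℕ => (x.1.2, x.2.card))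
            (by fun_prop)))))))
    · exact S1.ex (S1.and (S1.ball_mem (P := fun (_ : Unit × Finset ℕ) a _ => a ∈ σ ∨ Y a = true)
        (by fun_prop) (S1.or (S1.dec (by fun_prop)) (S1.of_sigIn (sigIn_true hY (by fun_prop)))))
        (S1.and (S1.ex (S1.dec (by fun_prop))) (S1.ex (S1.and
          (S1.or (S1.dec (by fun_prop)) (S1.of_sigIn (sigIn_true hY (by fun_prop))))
          (s1_gdec (by fun_prop) (by fun_prop))))))
  refine h1.congr fun _ g => ⟨?_, fun h => ?_⟩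
  · rintro h ⟨hn, ht⟩
    rcases h with ⟨u, v, a, x, b, c⟩ | ⟨u, v, a, b⟩ | ⟨u, v, a, b⟩ | ⟨u, a, b, V, c, d⟩ |
      ⟨u, a, b, x, c, d⟩
    · exact absurd (hn.size _ _ a x b) (by omega)
    · obtain ⟨x, x1, x2⟩ := hn.prog _ _ a
      exact absurd (b x x1) (by omega)
    · exact hn.out _ _ a b
    · exact absurd (hn.deg u a b V c) (by omega)
    · exact ht u a b x c d
  · by_contra hc
    simp only [not_or] at hc
    obtain ⟨a, b, c, d, e⟩ := hc
    refine h ⟨⟨fun u x g y hy => not_lt.1 fun l => a ⟨u, x, g, y, hy, l⟩, fun u x g => ?_,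
      fun u x g hx => c ⟨u, x, g, hx⟩, fun u y hy V hV => not_lt.1 fun l => d ⟨u, y, hy, V, hV, l⟩⟩,
      fun u h1 h2 x h3 g => e ⟨u, h1, h2, x, h3, g⟩⟩
    by_contra h4
    exact b ⟨u, x, g, fun y hy => not_lt.1 fun l => h4 ⟨y, hy, l⟩⟩

/-- Adding the mappings of a closed class to a condition. -/
theorem Cond.prod (c : Cond T) {P : Set Re} {D : ℕ → ℕ} (hne : P.Nonempty) (hP : Pi1 c.Z P)
    (hD : SigIn c.Z fun x : ℕ × ℕ => D x.1 < x.2)
    (h : ∀ g ∈ P, Nice D (gdec g) ∧ Tw c.σ c.Y (gdec g)) :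
    ∃ e : Cond T, e.Z = c.Z ∧ e.σ = c.σ ∧ e.Y = c.Y ∧ e.Poss ⊆ c.Poss ∧
      ∀ X ∈ e.Poss, ∃ g ∈ P, Fr (gdec g) X := by
  classical
  let l : ℕ → ℕ := fun n => 2 * n
  let r : ℕ → ℕ := fun n => 2 * n + 1
  have hl : Computable l := by unfold l; fun_prop
  have hr : Computable r := by unfold r; fun_prop
  refine ⟨⟨c.Z, c.σ, c.Y, {p | p ∘ l ∈ c.P ∧ p ∘ r ∈ P},
    fun p u v => c.E (p ∘ l) u v ∨ gdec (p ∘ r) u v, fun a => c.D a + D a, c.good, c.red, c.inf,
    ?_, ?_, ⟨?_, ?_⟩, sigIn_add c.cD hD, ?_, ?_, c.sep⟩, rfl, rfl, rfl, ?_, ?_⟩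
  · obtain ⟨p, hp⟩ := c.ne
    obtain ⟨q, hq⟩ := hne
    have h1 : join p q ∘ l = p := funext fun n => join_even p q n
    have h2 : join p q ∘ r = q := funext fun n => join_odd p q n
    exact ⟨join p q, by rw [h1]; exact hp, by rw [h2]; exact hq⟩
  · exact (S1.or (S1.reindex c.pi hl) (S1.reindex hP hr)).congr fun _ p => by
      simp only [Set.mem_ofPred_eq]; tauto
  · exact S1.or (c.dec.1.reindex hl) ((s1_gdec Computable.fst Computable.snd).reindex hr)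
  · exact (S1.and (c.dec.2.reindex hl)
      ((s1_not_gdec Computable.fst Computable.snd).reindex hr)).congr fun _ _ => not_or.symm
  · rintro p ⟨h1, h2⟩
    have h3 := c.nice _ h1
    have h4 := (h _ h2).1
    refine ⟨fun u v e a ha => e.elim (fun e => (h3.size u v e a ha).trans (Nat.le_add_right _ _))
        fun e => (h4.size u v e a ha).trans (Nat.le_add_left _ _),
      fun u v e => e.elim (h3.prog u v) (h4.prog u v),
      fun u v e => e.elim (h3.out u v) (h4.out u v), fun u a ha V hV => ?_⟩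
    have h5 := h3.deg u a ha (V.filter fun x => c.E (p ∘ l) u x)
      fun x hx => (Finset.mem_filter.1 hx).2
    have h6 := h4.deg u a ha (V.filter fun x => gdec (p ∘ r) u x)
      fun x hx => (Finset.mem_filter.1 hx).2
    refine (Finset.card_le_card (t := V.filter (fun x => c.E (p ∘ l) u x) ∪
      V.filter fun x => gdec (p ∘ r) u x) fun x hx => ?_).trans
      ((Finset.card_union_le _ _).trans (Nat.add_le_add h5 h6))
    exact Finset.mem_union.2 ((hV x hx).imp (fun e => Finset.mem_filter.2 ⟨hx, e⟩)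
      fun e => Finset.mem_filter.2 ⟨hx, e⟩)
  · rintro p ⟨h1, h2⟩ u hu hv x hx (e | e)
    · exact c.tw _ h1 u hu hv x hx e
    · exact (h _ h2).2 u hu hv x hx e
  · rintro X ⟨h1, p, hp, h2⟩
    exact ⟨h1, _, hp.1, fun u v a b e => h2 u v a b (Or.inl e)⟩
  · rintro X ⟨-, p, hp, h2⟩
    exact ⟨_, hp.2, fun u v a b e => h2 u v a b (Or.inr e)⟩

theorem Cond.step {f : ℕ → ℕ} (hf : ComputableIn {orc emp} f)
    (hn : ∀ Z, Good T Z → ¬ SigIn Z fun i => i ∉ Set.range f) (c : Cond T) {R : Re → Prop}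
    (hR : IsReq T c.Z R) :
    ∃ d : Cond T, Red c.Z d.Z ∧ d.Poss ⊆ c.Poss ∧ ∀ X ∈ d.Poss, R X := by
  classical
  rcases hR with ⟨M, e⟩ | ⟨W, b, hW, e⟩
  · obtain ⟨a, h1, h2⟩ := c.inf M
    obtain ⟨G, g1, g2, g3⟩ := c.types hf hn (c.σ.sup id + a + 1) (subset_range _ (by omega))
    have h3 : ∀ y ∈ c.σ ∪ {a}, y ∈ c.σ ∨ y = a := fun y hy =>
      (Finset.mem_union.1 hy).imp id Finset.mem_singleton.1
    have h3' : ∀ y ∈ c.σ ∪ {a}, y ∈ c.σ ∨ c.Y y = true := fun y hy =>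
      (h3 y hy).imp id fun e : y = a => by rw [e, h2]
    obtain ⟨d, d1, d2, d3⟩ := g3 {a} (Finset.singleton_subset_iff.2 (Finset.mem_range.2 (by omega)))
      (by simpa [In] using h2) (by
      intro u hu x hx g
      obtain ⟨y, y1, y2⟩ := g1.prog u x g
      rcases h3 y (hu y1) with h4 | rfl
      · exact g2 u (fun z hz => h3' z (hu hz)) ⟨y, y1, h4⟩ x (h3' x hx) g
      · rcases h3 x hx with h5 | rfl
        · exact absurd (c.sep x h5 y h2) (by omega)
        · omega) 0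
    exact ⟨d, d1, d2, fun X hX => (e X).2 ⟨a, h1, (d3 X hX).1 a (by simp)⟩⟩
  have hD := sigIn_star c.cD
  have hpi := pi1_class c.red hD c.σ
  let V : (ℕ × Finset ℕ) × Finset ℕ → Re → Prop := fun x g => In x.2 c.Y ∧
    FrF (gdec g) (c.σ ∪ x.2) ∧
    ∃ B : Finset ℕ, B.card ≤ b ∧ Disjoint B x.1.2 ∧ W (x.1.1, B) (add (c.σ ∪ x.2) emp)
  have hV : S1 c.Z V :=
    S1.and (s1_in c.red (by fun_prop)) (S1.and (s1_frF (by fun_prop))
      (S1.ex (S1.and (S1.dec (by fun_prop)) (S1.and (s1_disjoint (by fun_prop) (by fun_prop))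
        (s1_at_add hW c.σ (by fun_prop) (by fun_prop))))))
  have hV' : S1 c.Z fun x g => ∃ ρ, V (x, ρ) g := S1.ex hV
  rcases c.good.disperse (hpi.all hV') with ⟨n, hn'⟩ | h
  · have h1 : ∃ N, ∀ g, Nice (SchreierRainbow.star c.D) (gdec g) ∧ Tw c.σ c.Y (gdec g) →
        ∃ ρ, ρ ⊆ Finset.range N ∧ V ((n, T.C n), ρ) g := by
      by_contra hcon
      have h2 : ∀ N, S1 c.Z fun (_ : Unit) g => ∃ ρ, ρ ⊆ Finset.range N ∧ V ((n, T.C n), ρ) g :=
        fun N => S1.ex (S1.and (s1_subset (by fun_prop) (by fun_prop))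
          (hV.comp (f := fun x : Unit × Finset ℕ => ((n, T.C n), x.2)) (by fun_prop)))
      obtain ⟨g, hg⟩ := exists_mem_all (K := fun N => {g | g ∈ {g | Nice (SchreierRainbow.star c.D) (gdec g) ∧
          Tw c.σ c.Y (gdec g)} ∧ ¬ ∃ ρ, ρ ⊆ Finset.range N ∧ V ((n, T.C n), ρ) g})
        (fun N g hg => ⟨hg.1, fun ⟨ρ, a, b⟩ =>
          hg.2 ⟨ρ, a.trans (Finset.range_mono (Nat.le_succ _)), b⟩⟩)
        (fun N => by
          by_contra h3
          refine hcon ⟨N, fun g hg => ?_⟩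
          by_contra h4
          exact h3 ⟨g, hg, h4⟩)
        fun N => (hpi.sep (h2 N)).isClosed
      obtain ⟨ρ, hρ⟩ := hn' g (hg 0).1
      exact (hg (ρ.sup id + 1)).2 ⟨ρ, subset_range _ (by omega), hρ⟩
    obtain ⟨N, hN⟩ := h1
    obtain ⟨G, g1, g2, g3⟩ := c.types hf hn (c.σ.sup id + N + 1) (subset_range _ (by omega))
    obtain ⟨g, rfl⟩ := exists_gdec G
    obtain ⟨ρ, r1, r2, r3, B, r4, r5, r6⟩ := hN g ⟨g1, g2⟩
    obtain ⟨u, hu⟩ := hW.use r6
    obtain ⟨d, d1, d2, d3⟩ := g3 ρ (r1.trans (Finset.range_mono (by omega))) r2 r3 u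
    exact ⟨d, d1, d2, fun X hX => (e X).2 ⟨n, Or.inr ⟨B, r4, hu X (d3 X hX).2, r5⟩⟩⟩
  obtain ⟨n, hn'⟩ := h b
  let P : Finset ℕ → Set Re := fun S => {g | g ∈ {g | Nice (SchreierRainbow.star c.D) (gdec g) ∧
    Tw c.σ c.Y (gdec g)} ∧ ¬ ∃ ρ, V ((n, S), ρ) g}
  have key : ∀ L : Finset (Finset ℕ), ∃ d : Cond T, d.Z = c.Z ∧ d.σ = c.σ ∧ d.Y = c.Y ∧
      d.Poss ⊆ c.Poss ∧ ∀ S ∈ L, (P S).Nonempty → ∀ X ∈ d.Poss, ∃ g ∈ P S, Fr (gdec g) X := by
    intro L
    induction L using Finset.induction_on with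
    | empty => exact ⟨c, rfl, rfl, rfl, subset_rfl, by simp⟩
    | insert S L _ ih =>
      obtain ⟨d, a1, a2, a3, a4, a5⟩ := ih
      by_cases hS : (P S).Nonempty
      · obtain ⟨d', b1, b2, b3, b4, b5⟩ := d.prod (P := P S) hS
          (a1 ▸ hpi.sep (hV'.comp (f := fun _ => (n, S)) (by fun_prop))) (a1 ▸ hD)
          (fun g hg => by rw [a2, a3]; exact hg.1)
        refine ⟨d', b1.trans a1, b2.trans a2, b3.trans a3, b4.trans a4, fun S' hS' h' X hX => ?_⟩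
        rcases Finset.mem_insert.1 hS' with rfl | hS'
        · exact b5 X hX
        · exact a5 S' hS' h' X (b4 hX)
      · refine ⟨d, a1, a2, a3, a4, fun S' hS' h' => ?_⟩
        rcases Finset.mem_insert.1 hS' with rfl | hS'
        · exact absurd h' hS
        · exact a5 S' hS' h'
  obtain ⟨d, a1, a2, a3, a4, a5⟩ := key (Finset.range (2 ^ n)).powerset
  refine ⟨d, a1 ▸ Red.refl _, a4, fun X hX => (e X).2 ⟨n, Or.inl fun B hB hW' => ?_⟩⟩
  obtain ⟨S, s1, s2, s3⟩ := hn' B hB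
  have s4 : (P S).Nonempty := by
    by_contra h1
    refine s2 fun g hg => ?_
    by_contra h2
    exact h1 ⟨g, hg, h2⟩
  obtain ⟨g, hg, hfr⟩ := a5 S (Finset.mem_powerset.2 s1) s4 X hX
  obtain ⟨u, hu⟩ := hW.use hW'
  have hX' := (a4 hX).1
  have h4 : In (c.σ ∪ (Finset.range u).filter fun a => X a = true ∧ c.Y a = true) X :=
    fun a ha => (Finset.mem_union.1 ha).elim (hX'.1 a) fun h => (Finset.mem_filter.1 h).2.1
  refine hg.2 ⟨(Finset.range u).filter fun a => X a = true ∧ c.Y a = true,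
    fun a ha => (Finset.mem_filter.1 ha).2.2,
    fun s hs t ht => hfr s t (h4.mono hs) (h4 t ht), B, hB, s3, hu _ fun i hi => re_ext ?_⟩
  simp only [add_true, Finset.mem_union, Finset.mem_filter, Finset.mem_range, emp_true, or_false]
  exact ⟨fun h => h.elim (hX'.1 i) fun h => h.2.1,
    fun h => (hX'.2 i h).imp id fun h' => ⟨hi, h, h'⟩⟩

/-- Every condition leaves possible an infinite good set. -/
theorem Cond.exists_good {f : ℕ → ℕ} (hf : ComputableIn {orc emp} f)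
    (hn : ∀ Z, Good T Z → ¬ SigIn Z fun i => i ∉ Set.range f) (c : Cond T) :
    ∃ X ∈ c.Poss, Inf X ∧ Good T (join c.Z X) := by
  obtain ⟨R, hR, hX⟩ := exists_reqs T c.Z
  have step : ∀ (s : ℕ) (d : {d : Cond T // Red c.Z d.Z}), ∃ d' : {d : Cond T // Red c.Z d.Z},
      d'.1.Poss ⊆ d.1.Poss ∧ ∀ X ∈ d'.1.Poss, R s X := fun s d =>
    let ⟨d', a1, a2, a3⟩ := d.1.step hf hn ((hR s).red d.2)
    ⟨⟨d', d.2.trans a1⟩, a2, a3⟩
  obtain ⟨d, d0, hd⟩ := exists_seq ⟨c, Red.refl _⟩ step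
  obtain ⟨X, hX'⟩ := exists_mem_all (K := fun s => (d s).1.Poss) (fun s => (hd s).1)
    (fun s => (d s).1.poss_ne) fun s => (d s).1.poss_closed
  refine ⟨X, ?_, hX X fun s => (hd s).2 X (hX' (s + 1))⟩
  have := hX' 0
  rwa [d0] at this

end Pool.Agent.FS.ProgFree
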